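import Pool.Agent.H45.UZ.TarF

/-! # MP_f6fd33_lc, FRL: a label for a real which is not a promise -/

set_option linter.unusedVariables false

open Ordinal Order Set
open scoped ZFSet

namespace SE.UZ

open SF

namespace FRLp

/-- it is decided whether the value of a name is different from the promises of the labels in a
set `S` of the ground model -/
theorem dec_prm (hQ : T_QI4d) (hBBb : T_BBb) (hBJ : T_BJ) (hDS : CAA.T_DS) (D : Cx) (hD : D.Ok)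
    (ρ : V) (hρ : D.N ρ) (hpo : IsPo (D.P ρ) (D.R ρ)) (Y S : V) (hY : D.N Y) (hS : D.N S) :
    Dcd D ρ (fun G => ¬ ∃ k ∈ S, ev G Y = prm G k) := by
  obtain ⟨-, -, -, -, -, -, hp, -⟩ := hQ
  have h2 : Dfb ZFm (fun _ v => ev (v 1) (v 2) = prm (v 1) (v 0)) :=
    Dfb.eq ((hBBb.2.2.2.2.1).rn fun i => i + 1) (hp.rn fun i => if i = 0 then 1 else 0)
  have h1 : Dfb ZFm (fun _ v => ¬ ∃ k ∈ v 2, ev (v 0) (v 1) = prm (v 0) k) :=
    (Dfb.bex ktr_zfm (Tm.var 2) h2).not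
  obtain ⟨O, hO, hO2⟩ := hDS _ h1
  obtain ⟨-, -, -, hP, -⟩ := hBJ D hD
  have hin : In D.N (cons Y (cons S fun _ => S)) := In.cons (In.cons (fun _ => hS) hS) hY
  have hz : ZFm D.N := hD.zfc.toZFCm.toZFm
  have h3 := hO2 D.N (D.P ρ) (D.R ρ) (cons Y (cons S fun _ => S)) hz (hP ρ hρ).1 (hP ρ hρ).2 hpo hin
  refine ⟨O D.N (cons (D.P ρ) (cons (D.R ρ) (cons Y (cons S fun _ => S)))),
    hO.1 D.N hz _ ((hin.cons (hP ρ hρ).2).cons (hP ρ hρ).1), fun G hG => ?_⟩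
  exact h3.2.1 G hG

/-- the set of the labels of a given kind is in the ground model -/
theorem n_kind (hQ : T_QI4d) (D : Cx) (hD : D.Ok) (ρ : V) (hρ : D.N ρ) (e : ℕ) :
    D.N (ρ.sep fun k => kd k = nS e) := by
  have hz : ZFm D.N := hD.zfc.toZFCm.toZFm
  have h : Tm ZFm (fun _ v => (v 0).sep fun x => kd x = nS e) :=
    Tm.sep (R := fun _ v => kd (v 0) = nS e) (Dfb.eq hQ.1 (Tm.nS e)) (Tm.var 0)
  exact h.1 D.N hz (fun _ => ρ) (fun _ => hρ)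

end FRLp

theorem pf_FRL (hBA : T_BA) (hBBb : T_BBb) (hBD : T_BD) (hBJ : T_BJ) (hBK : T_BK) (hBL : T_BL)
    (hBO : T_BO) (hBR : T_BR) (hAH : SE.T_AH) (hDS : CAA.T_DS) (hQ : T_QI4d) (hQRN : T_QRN)
    (hFR1 : T_FR1) : T_FRL := by
  intro D κ ha b ho B1 hB1 v nv hv
  have hD := ha.ok
  obtain ⟨-, -, hHN, -, -⟩ := hBJ D hD
  have hcs := ho.cs B1 hB1.1
  have nu : D.N (b.u B1) := hHN _ hcs.h
  have tu : Tr (b.u B1) := (hBA.2.2.2.2.2.2 D.L _ hcs.c).1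
  have h0 : nS 0 ∈ D.H := (hBR D hD).2.2.2.2.2.2.2.2.2 0
  have nK := FRLp.n_kind hQ D hD (b.u B1) nu (b.l + 1)
  obtain ⟨O, nO, hO⟩ := FRLp.dec_prm hQ hBBb hBJ hDS D hD (b.u B1) nu
    (hBD.2.2.2.2.2.2.2 _ _) v _ nv nK
  obtain ⟨-, hb2, -, hb4, -, -⟩ := hBO D hD (b.u B1) nu hcs.c
  obtain ⟨nk, hk0, ek0⟩ := hb4 0
  obtain ⟨Y, nY, hY, eY⟩ := hb2 v (knm D.L (b.u B1) 0) O nv nk nO hv hk0
  obtain ⟨B', i, hle, hi, hi', -, hki, -, -, hls, hev, hnew⟩ :=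
    ho.lb B1 hB1.1 Y nY hY b.l (Or.inr le_rfl) (nS 0) h0 (nS 0) h0 (nS 0) h0
  obtain ⟨-, hB', hsub⟩ := ho.leO _ _ hle
  have hcs' := ho.cs B' hB'
  have nu' : D.N (b.u B') := hHN _ hcs'.h
  -- the values of the new label
  have key : ∀ G, D.Gn (b.u B') G →
      ((∀ k ∈ b.u B1, kd k = nS (b.l + 1) → ev G v ≠ prm G k) → ev G (lZ i) = ev G v) ∧
      ((¬ ∀ k ∈ b.u B1, kd k = nS (b.l + 1) → ev G v ≠ prm G k) → ev G (lZ i) = kc 0) := by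
    intro G hG
    obtain ⟨hbk, -⟩ := hBK D hD (b.u B') G nu' hcs'.c hG
    obtain ⟨-, hbl⟩ := hBL D hD (b.u B') G nu' hcs'.c hG
    obtain ⟨hG1, -⟩ := hbl (b.u B1) nu hsub tu
    have eYG : ev (gs G (b.u B1)) Y = ev G Y :=
      (hbk _ Y nu hsub tu nY hY).2.2.2.2.2 _ (fun x hx => hx)
    have evG : ev (gs G (b.u B1)) v = ev G v :=
      (hbk _ v nu hsub tu nv hv).2.2.2.2.2 _ (fun x hx => hx)
    have hq := (hQRN D hD (b.u B') G (b.u B1) nu' hcs'.c hG nu hsub tu).2.2.2.2.2.2.2.2.2.2.2.2.2.2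
    have hX : (∀ k ∈ b.u B1, kd k = nS (b.l + 1) → ev G v ≠ prm G k) ↔
        ∃ p ∈ gs G (b.u B1), p ∈ O := by
      rw [← hO _ hG1]
      constructor
      · rintro h ⟨k, hk, e⟩
        rw [ZFSet.mem_sep] at hk
        rw [evG, (hq k hk.1).1] at e
        exact h k hk.1 hk.2 e
      · intro h k hk hkk e
        refine h ⟨k, ZFSet.mem_sep.2 ⟨hk, hkk⟩, ?_⟩
        rw [evG, (hq k hk).1, e]
    rw [hev G hG, ← eYG]
    constructor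
    · intro h
      rw [(eY _ hG1).1 (hX.1 h), evG]
    · intro h
      rw [(eY _ hG1).2 (fun h' => h (hX.2 h')), ek0 _ hG1]
  refine ⟨B', v, B', ⟨nv, hv⟩, ?_, hle, rfl, i, hi, hki, fun G hG => (key G hG).1⟩
  refine (hFR1 D κ ha b ho).2.2.1 B1 B' i hB1 hle hi hi' hls (fun k hk hk1 hk2 =>
    (hnew k hk hk1 hk2).1) fun _ G hG k hk hkk e => ?_
  by_cases h : ∀ k ∈ b.u B1, kd k = nS (b.l + 1) → ev G v ≠ prm G k
  · rw [(key G hG).1 h] at e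
    exact h k hk hkk e
  · rw [(key G hG).2 h] at e
    obtain ⟨hr1, -, -, hr4, -, hr6⟩ := hAH
    obtain ⟨q1, q2, q3⟩ := (hQRN D hD (b.u B') G (b.u B1) nu' hcs'.c hG nu hsub
      tu).2.2.2.2.2.2.2.2.1 k (hsub hk)
    exact hr6 _ _ (hr1 _ _ (hr4 1).1 q1).1 q2 e.symm

end SE.UZ
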