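import Pool.Agent.H45.UZ.TarF
import Pool.Agent.H72.UZ.TarW

/-! # MP_f6fd33_lc, FR6: (b6) for the free system -/

set_option linter.unusedVariables false

open Ordinal Order Set
open scoped ZFSet

namespace SE.UZ

open SF

namespace FR6p

theorem tri {κ x y : V} (h : IsOrd κ) (hx : x ∈ κ) (hy : y ∈ κ) : x ∈ y ∨ x = y ∨ y ∈ x := by
  obtain ⟨α, rfl⟩ := h
  rw [Ordinal.mem_toZFSet_iff] at hx hy
  obtain ⟨a, -, rfl⟩ := hx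
  obtain ⟨c, -, rfl⟩ := hy
  rcases lt_trichotomy a c with h | h | h
  · exact Or.inl (toZFSet_mem_toZFSet_iff.2 h)
  · exact Or.inr (Or.inl (by rw [h]))
  · exact Or.inr (Or.inr (toZFSet_mem_toZFSet_iff.2 h))

theorem un_congr {b b' : BS} {κ F : V} (h : ∀ v ∈ κ, b'.u (app F v) = b.u (app F v)) :
    b'.un κ F = b.un κ F := by
  unfold BS.un
  congr 1
  ext z
  simp only [mem_imS]
  constructor
  · rintro ⟨x, hx, rfl⟩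
    exact ⟨x, hx, (h x hx).symm⟩
  · rintro ⟨x, hx, rfl⟩
    exact ⟨x, hx, h x hx⟩

end FR6p

open FR6p

theorem pf_FR6 (hBA : T_BA) (hBJ : T_BJ) (hBL : T_BL) (hAH : SE.T_AH) (hQRN : T_QRN)
    (hQSE : T_QSE) (hF5 : T_F5) (hFRN : T_FRN) : T_FR6 := by
  intro D κ ha b ho b' hb' F hCh
  have hD := ha.ok
  obtain ⟨-, -, hHN, -, -⟩ := hBJ D hD
  obtain ⟨⟨hl, hS⟩, -, hOb, hu, hLe, hRi, -, -, hSe⟩ := hFRN D κ ha b ho b' hb'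
  have hOf : ∀ ξ ∈ κ, b.Of D (app F ξ) := fun ξ hξ => (hOb _).1 (hCh.o ξ hξ)
  have huF : ∀ ξ ∈ κ, b'.u (app F ξ) = b.u (app F ξ) := fun ξ hξ => hu _ (hOf ξ hξ)
  have hCh1 : b.Ch D κ F :=
    ⟨hCh.n, fun ξ hξ => (hOf ξ hξ).1, fun ξ hξ η hη h => ((hLe _ _).1 (hCh.m ξ hξ η hη h)).2.2,
      fun ξ hξ => ((hRi _ _).1 (hCh.r ξ hξ)).2.2.1⟩
  have hun : b'.un κ F = b.un κ F := un_congr huF
  refine ⟨hCh1, hun, fun G hG => ?_⟩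
  rw [hun] at hG ⊢
  -- facts on the chain
  have hcs : ∀ ξ ∈ κ, CS D (b.u (app F ξ)) := fun ξ hξ => ho.cs _ (hOf ξ hξ).1
  have nu : ∀ ξ ∈ κ, D.N (b.u (app F ξ)) := fun ξ hξ => hHN _ (hcs ξ hξ).h
  have tu : ∀ ξ ∈ κ, Tr (b.u (app F ξ)) := fun ξ hξ =>
    (hBA.2.2.2.2.2.2 D.L _ (hcs ξ hξ).c).1
  have k : ZFm D.N := hD.zfc.toZFCm.toZFm
  have nR : D.N (resS κ fun ξ => b.u (app F ξ)) := by
    have h := (Tm.resS (f := fun _ v => v 0) (Tm.var 0) (g := fun _ v => app (v 2) (app (v 3) (v 0)))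
      (Tm.app (Tm.var 2) (Tm.app (Tm.var 3) (Tm.var 0)))).1 D.N k
      (cons κ (cons b.U (cons F fun _ => F)))
      (In.cons (In.cons (In.cons (fun _ => hCh.n) hCh.n) ho.nU) (hHN _ ha.kH))
    exact h
  have eR : ∀ ξ ∈ κ, app (resS κ fun ξ => b.u (app F ξ)) ξ = b.u (app F ξ) := fun ξ hξ =>
    app_resS hξ
  have hΛ : b.un κ F = (⋃₀ (imS κ (app (resS κ fun ξ => b.u (app F ξ)))) : ZFSet) := by
    unfold BS.un
    congr 1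
    ext z
    simp only [mem_imS]
    constructor
    · rintro ⟨x, hx, rfl⟩
      exact ⟨x, hx, eR x hx⟩
    · rintro ⟨x, hx, rfl⟩
      exact ⟨x, hx, (eR x hx).symm⟩
  obtain ⟨hΛH, hΛc, hmem, -, -, hreal⟩ := hF5 D κ ha _ nR
    (fun ξ hξ => by rw [eR ξ hξ]; exact ⟨(hcs ξ hξ).h, (hcs ξ hξ).c⟩)
    (fun ξ hξ η hη h => by
      rw [eR ξ hξ, eR η hη]
      exact (ho.leO _ _ (hCh1.m ξ hξ η hη h)).2.2) _ hΛ
  have nΛ : D.N (b.un κ F) := hHN _ hΛH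
  have hsub : ∀ ξ ∈ κ, b.u (app F ξ) ⊆ b.un κ F := fun ξ hξ i hi => by
    rw [hmem]
    exact ⟨ξ, hξ, by rw [eR ξ hξ]; exact hi⟩
  have hreal' : ∀ x, D.W G x → Rl x → ∃ ξ ∈ κ, RR D (b.u (app F ξ)) G x := fun x hx hr => by
    obtain ⟨ξ, hξ, h⟩ := hreal G hG x hx hr
    rw [eR ξ hξ] at h
    exact ⟨ξ, hξ, h⟩
  have Q := fun ξ (hξ : ξ ∈ κ) => hQRN D hD (b.un κ F) G (b.u (app F ξ)) nΛ hΛc hG (nu ξ hξ)
    (hsub ξ hξ) (tu ξ hξ)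
  obtain ⟨-, hbl⟩ := hBL D hD (b.un κ F) G nΛ hΛc hG
  have mono : ∀ ξ ∈ κ, ∀ η ∈ κ, ξ ∈ η ∨ ξ = η → b.Le (app F ξ) (app F η) := by
    rintro ξ hξ η hη (h | rfl)
    · exact hCh1.m ξ hξ η hη h
    · exact ho.rfl _ (hOf ξ hξ).1
  have rmono : ∀ ξ ∈ κ, ∀ η ∈ κ, ξ ∈ η ∨ ξ = η → ∀ x, RR D (b.u (app F ξ)) G x →
      RR D (b.u (app F η)) G x := fun ξ hξ η hη h x hx =>
    (Q ξ hξ).2.2.2.2.2.2.2.1 _ (nu η hη) (ho.leO _ _ (mono ξ hξ η hη h)).2.2 (hsub η hη)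
      (tu η hη) x hx
  have isW : ∀ ξ ∈ κ, ∀ x, RR D (b.u (app F ξ)) G x → D.W G x ∧ Rl x := fun ξ hξ x hx =>
    ((Q ξ hξ).2.2.2.1 x).1 ((Q ξ hξ).2.2.1 x hx)
  have gsgs : ∀ ξ ∈ κ, ∀ η ∈ κ, ξ ∈ η ∨ ξ = η →
      gs (gs G (b.u (app F η))) (b.u (app F ξ)) = gs G (b.u (app F ξ)) :=
    fun ξ hξ η hη h => (hbl _ (nu η hη) (hsub η hη) (tu η hη)).2.2.2.2.2.2 _
      (ho.leO _ _ (mono ξ hξ η hη h)).2.2
  have gnF : ∀ ξ ∈ κ, D.Gn (b.u (app F ξ)) (gs G (b.u (app F ξ))) := fun ξ hξ =>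
    (hbl _ (nu ξ hξ) (hsub ξ hξ) (tu ξ hξ)).1
  -- `RR` only depends on the restriction
  have rrF : ∀ ξ ∈ κ, ∀ η ∈ κ, ξ ∈ η ∨ ξ = η → ∀ x, RR D (b.u (app F ξ)) G x →
      RR D (b.u (app F ξ)) (gs G (b.u (app F η))) x := by
    intro ξ hξ η hη h x hx
    unfold RR at hx ⊢
    rw [gsgs ξ hξ η hη h]
    exact hx
  have E := fun ξ (hξ : ξ ∈ κ) => (hQSE D κ ha b ho (app F ξ) (hOf ξ hξ).1 (b.un κ F) nΛ hΛc
    (hsub ξ hξ) G hG).1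
  have hsuc : ∀ ξ ∈ κ, insert ξ ξ ∈ κ ∧ ξ ∈ (insert ξ ξ : V) := fun ξ hξ =>
    ⟨ha.suc ξ hξ, ZFSet.mem_insert ξ ξ⟩
  obtain ⟨t1, t2, t3⟩ := ho.tru F hCh1 G hG
  have h3 := ho.l3
  refine ⟨?_, ?_, ?_⟩
  · -- (i)
    intro ξ hξ a x hra hrx
    rw [huF ξ hξ] at hra hrx
    have e1 : b'.l - 1 = (b.l - 1) + 1 := by omega
    rw [e1, hSe _ (hOf ξ hξ) _ nΛ hΛc (hsub ξ hξ) G hG a x]
    -- the `Σ` fact and the secured facts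
    have hsg : SgH (D.W G) ((b.l - 1) + 1) a x ↔
        ∃ η ∈ κ, (ξ ∈ η ∨ ξ = η) ∧ b.Ss D (app F η) G a x := by
      constructor
      · rintro ⟨v, hv1, hv2, hv3⟩
        obtain ⟨η0, hη0, hv⟩ := hreal' v hv1 hv2
        obtain ⟨η, hη, hle1, hle2⟩ : ∃ η ∈ κ, (ξ ∈ η ∨ ξ = η) ∧ (η0 ∈ η ∨ η0 = η) := by
          rcases tri ha.ord hξ hη0 with h | h | h
          · exact ⟨η0, hη0, Or.inl h, Or.inr rfl⟩
          · exact ⟨η0, hη0, Or.inr h, Or.inr rfl⟩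
          · exact ⟨ξ, hξ, Or.inr rfl, Or.inl h⟩
        refine ⟨η, hη, hle1, v, rmono η0 hη0 η hη hle2 v hv, ?_⟩
        exact (t1 η hη a (prl x v) (rmono ξ hξ η hη hle1 a hra)
          ((Q η hη).2.2.2.2.1 _ _ (rmono ξ hξ η hη hle1 x hrx)
            (rmono η0 hη0 η hη hle2 v hv))).1 hv3
      · rintro ⟨η, hη, hle1, v, hv, hse⟩
        obtain ⟨w1, w2⟩ := isW η hη v hv
        refine ⟨v, w1, w2, ?_⟩
        exact (t1 η hη a (prl x v) (rmono ξ hξ η hη hle1 a hra)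
          ((Q η hη).2.2.2.2.1 _ _ (rmono ξ hξ η hη hle1 x hrx) hv)).2 hse
    constructor
    · intro h
      refine ⟨hra, hrx, ?_⟩
      by_contra hsf
      obtain ⟨hs1, hs2⟩ := hsuc ξ hξ
      obtain ⟨-, -, -, hF1, -⟩ := (hRi _ _).1 (hCh.r ξ hξ)
      have h5 := hF1 (gs G (b.u (app F (insert ξ ξ)))) (gnF _ hs1) a x
        (rrF ξ hξ _ hs1 (Or.inl hs2) a hra) (rrF ξ hξ _ hs1 (Or.inl hs2) x hrx)
        (by rw [gsgs ξ hξ _ hs1 (Or.inl hs2)]; exact hsf)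
      exact h (hsg.2 ⟨insert ξ ξ, hs1, Or.inl hs2, ((E _ hs1 a x).2.2.1).2 h5⟩)
    · rintro ⟨-, -, hsf⟩ h
      obtain ⟨η, hη, hle1, hss⟩ := hsg.1 h
      refine hsf ⟨app F η, gs G (b.u (app F η)), hOf η hη, ⟨mono ξ hξ η hη hle1, gnF η hη,
        gsgs ξ hξ η hη hle1⟩, ((E η hη a x).2.2.1).1 hss⟩
  · -- (ii)
    intro z z' hz hrz hz' hrz'
    have e1 : b'.l - 3 = (b.l - 3) + 1 := by omega
    have e2 : nS b'.l = nS (b.l + 1) := by rw [hl]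
    rw [e1, e2]
    obtain ⟨hr1, hr2, -, hr4, -, -⟩ := hAH
    -- reals of the extension
    have zero := ha.zero
    have kW : ∀ ξ ∈ κ, D.W G (kc 1) := fun ξ hξ => (isW ξ hξ _ ((Q ξ hξ).2.2.2.2.2.2.1 1)).1
    have prW : ∀ x y, D.W G x → Rl x → D.W G y → Rl y → D.W G (prl x y) := by
      intro x y hx hx' hy hy'
      obtain ⟨ξ, hξ, h1⟩ := hreal' x hx hx'
      obtain ⟨η, hη, h2⟩ := hreal' y hy hy'
      rcases tri ha.ord hξ hη with h | h | h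
      · exact (isW η hη _ ((Q η hη).2.2.2.2.1 _ _ (rmono ξ hξ η hη (Or.inl h) x h1) h2)).1
      · exact (isW η hη _ ((Q η hη).2.2.2.2.1 _ _ (rmono ξ hξ η hη (Or.inr h) x h1) h2)).1
      · exact (isW ξ hξ _ ((Q ξ hξ).2.2.2.2.1 _ _ h1 (rmono η hη ξ hξ (Or.inl h) y h2))).1
    have hzz : D.W G (prl z z') := prW z z' hz hrz hz' hrz'
    have hrzz : Rl (prl z z') := (hr1 z z' hrz hrz').1
    have hk : D.W G (prl (kc 1) (prl z z')) :=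
      prW _ _ (kW ∅ zero) (hr4 1).1 hzz hrzz
    have hrk : Rl (prl (kc 1) (prl z z')) := (hr1 _ _ (hr4 1).1 hrzz).1
    constructor
    · rintro ⟨a, ha1, ha2, ha3⟩
      by_contra hno
      apply ha3
      rw [t2 _ _ hk hrk ha1 ha2]
      have hva : D.W G (prl (prl (kc 1) (prl z z')) a) := prW _ _ hk hrk ha1 ha2
      obtain ⟨ξ, hξ, hv⟩ := hreal' _ hva (hr1 _ _ hrk ha2).1
      obtain ⟨hs1, hs2⟩ := hsuc ξ hξ
      obtain ⟨-, -, -, -, hF2⟩ := (hRi _ _).1 (hCh.r ξ hξ)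
      have hsb : b.u (app F ξ) ⊆ b.u (app F (insert ξ ξ)) :=
        (ho.leO _ _ (mono ξ hξ _ hs1 (Or.inl hs2))).2.2
      obtain ⟨i, hi, hki, hei⟩ := hF2 (gs G (b.u (app F (insert ξ ξ)))) (gnF _ hs1) _
        (rrF ξ hξ _ hs1 (Or.inl hs2) _ hv) (by
          intro j hj hkj hpr
          rw [((Q _ hs1).2.2.2.2.2.2.2.2.2.2.2.2.2.2 j (hsb hj)).1] at hpr
          obtain ⟨q1, q2, -⟩ := (Q ξ hξ).2.2.2.2.2.2.2.2.1 j (hsub ξ hξ hj)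
          have h6 := (hr2 _ _ _ _ hrk ha2 (hr1 _ _ (hr4 1).1 q1).1 q2 hpr).1
          have h7 := (hr2 _ _ _ _ (hr4 1).1 hrzz (hr4 1).1 q1 h6).2
          exact hno ⟨j, hsub ξ hξ hj, hkj, h7.symm⟩)
      rw [((Q _ hs1).2.2.2.2.2.2.2.2.2.2.2.2.2.2 i hi).2.1] at hei
      exact ⟨i, hsub _ hs1 hi, hki, hei⟩
    · rintro ⟨j, hj, hkj, hej⟩
      obtain ⟨ξ0, hξ0, hj0⟩ := (hmem j).1 hj
      rw [eR ξ0 hξ0] at hj0
      obtain ⟨-, q2, -⟩ := (Q ξ0 hξ0).2.2.2.2.2.2.2.2.1 j hj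
      have hcg := isW ξ0 hξ0 _ ((Q ξ0 hξ0).2.2.2.2.2.2.2.2.2.1 j hj0).2.1
      refine ⟨cg G j, hcg.1, hcg.2, fun hdk => ?_⟩
      rw [t2 _ _ hk hrk hcg.1 hcg.2] at hdk
      obtain ⟨i, hi, hki, hei⟩ := hdk
      obtain ⟨η0, hη0, hi0⟩ := (hmem i).1 hi
      rw [eR η0 hη0] at hi0
      -- both labels are in one object
      obtain ⟨η, hη, hiη, hjη⟩ : ∃ η ∈ κ, i ∈ b.u (app F η) ∧ j ∈ b.u (app F η) := by
        rcases tri ha.ord hξ0 hη0 with h | h | h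
        · exact ⟨η0, hη0, hi0, (ho.leO _ _ (mono ξ0 hξ0 η0 hη0 (Or.inl h))).2.2 hj0⟩
        · exact ⟨η0, hη0, hi0, (ho.leO _ _ (mono ξ0 hξ0 η0 hη0 (Or.inr h))).2.2 hj0⟩
        · exact ⟨ξ0, hξ0, (ho.leO _ _ (mono η0 hη0 ξ0 hξ0 (Or.inl h))).2.2 hi0, hj0⟩
      have hne := (hOf η hη).2 i hiη j hjη hki hkj _ (gnF η hη)
      rw [((Q η hη).2.2.2.2.2.2.2.2.2.2.2.2.2.2 i hiη).2.1,
        ((Q η hη).2.2.2.2.2.2.2.2.2.2.2.2.2.2 j hjη).1] at hne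
      apply hne
      rw [hei]
      unfold prm
      rw [hej]
  · intro e he
    rw [hS] at he
    exact t3 e he

end SE.UZ
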